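import Mathlib

/-!
# Functions of finite degree on a monoid

`E` is a set of pairs of elements of a monoid `M` (the two resolutions of a double point).  A function
on `M` with values in an abelian group has degree less than `n` if all its `n`-fold differences with
respect to the pairs of `E` vanish (`Dg E n`).
-/

set_option autoImplicit false

namespace Pool.Agent.Y466.FT

section
variable {M : Type*} [Monoid M] {A : Type*} [AddCommGroup A]

/-- The function has degree less than `n`: every `n`-fold difference vanishes. -/
def Dg (E : Set (M × M)) : ℕ → (M → A) → Prop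
  | 0, φ => ∀ p, φ p = 0
  | n+1, φ => ∀ e ∈ E, ∀ a : M, Dg E n (fun p => φ (a * e.1 * p) - φ (a * e.2 * p))

variable {E : Set (M × M)}

theorem Dg.zero (n : ℕ) : Dg E n (fun _ : M => (0 : A)) := by
  induction n with
  | zero => intro p; rfl
  | succ n ih =>
    intro e _ a
    simpa using ih

theorem Dg.congr {n : ℕ} {φ ψ : M → A} (h : Dg E n φ) (e : ∀ p, φ p = ψ p) : Dg E n ψ := by
  have : φ = ψ := funext e
  rwa [← this]

theorem Dg.sub {n : ℕ} {φ ψ : M → A} (h : Dg E n φ) (h' : Dg E n ψ) :
    Dg E n (fun p => φ p - ψ p) := by
  induction n generalizing φ ψ with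
  | zero => intro p; simp only [h p, h' p, sub_self]
  | succ n ih =>
    intro e he a
    exact (ih (h e he a) (h' e he a)).congr fun p => sub_sub_sub_comm _ _ _ _

theorem Dg.neg {n : ℕ} {φ : M → A} (h : Dg E n φ) : Dg E n (fun p => - φ p) := by
  have := (Dg.zero (E := E) (A := A) n).sub h
  simpa using this

theorem Dg.add {n : ℕ} {φ ψ : M → A} (h : Dg E n φ) (h' : Dg E n ψ) :
    Dg E n (fun p => φ p + ψ p) := by
  have := h.sub h'.neg
  simpa using this

theorem Dg.trans {n : ℕ} {φ : M → A} (h : Dg E n φ) (b : M) : Dg E n (fun p => φ (b * p)) := by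
  induction n generalizing φ b with
  | zero => intro p; exact h _
  | succ n ih =>
    intro e he a
    have := h e he (b * a)
    convert this using 4 <;> simp only [mul_assoc]

/-- The congruence of all pairs `(p, p')` such that `φ (a p b u) - φ (a p' b u)`, as a function of
`u`, has degree less than `n` for all `a`, `b`. -/
def cg (E : Set (M × M)) (n : ℕ) (φ : M → A) : Con M where
  r p p' := ∀ a b : M, Dg E n (fun u => φ (a * p * b * u) - φ (a * p' * b * u))
  iseqv := by
    refine ⟨fun p a b => ?_, fun {p p'} h a b => ?_, fun {p p' p''} h h' a b => ?_⟩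
    · simpa using Dg.zero (E := E) (A := A) n
    · exact (h a b).neg.congr fun u => by abel
    · exact ((h a b).add (h' a b)).congr fun u => by abel
  mul' := by
    intro p p' r r' h h' a b
    have h1 := h a (r * b)
    have h2 := h' (a * p') b
    refine (h1.add h2).congr fun u => ?_
    simp only [mul_assoc]
    abel

/-- The difference operator. -/
def Tr (w : M) (φ : M → A) : M → A := fun p => φ (w * p) - φ p

/-- `φ` does not distinguish the two sides of the relations `R`. -/
def Iv (R : Set (M × M)) (φ : M → A) : Prop := ∀ r ∈ R, ∀ a b : M, φ (a * r.1 * b) = φ (a * r.2 * b)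

/-- `w` and `1` are related by every congruence which contains `R` and `E`. -/
def Pu (R E : Set (M × M)) (w : M) : Prop :=
  ∀ c : Con M, (∀ r ∈ R, c r.1 r.2) → (∀ e ∈ E, c e.1 e.2) → c w 1

variable {R : Set (M × M)}

theorem Iv.tr {φ : M → A} (h : Iv R φ) (w : M) : Iv R (Tr w φ) := by
  intro r hr a b
  unfold Tr
  have h1 := h r hr (w * a) b
  have h2 := h r hr a b
  simp only [mul_assoc] at h1 h2 ⊢
  rw [h1, h2]

/-- **The degree drops** under the difference operator of an element `w` which is trivial modulo the
relations and the resolutions of double points. -/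
theorem Dg.tr {n : ℕ} {φ : M → A} (h : Dg E (n + 1) φ) (hR : Iv R φ) {w : M} (hw : Pu R E w) :
    Dg E n (Tr w φ) := by
  have key : cg E n φ w 1 := by
    refine hw _ (fun r hr a b => ?_) (fun e he a b => ?_)
    · have : (fun u => φ (a * r.1 * b * u) - φ (a * r.2 * b * u)) = fun _ => (0 : A) := by
        funext u
        have := hR r hr a (b * u)
        simp only [mul_assoc] at this ⊢
        rw [this, sub_self]
      rw [this]
      exact Dg.zero n
    · have := (h e he a).trans b
      refine this.congr fun u => ?_
      simp only [mul_assoc]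
  refine (key 1 1).congr fun u => ?_
  simp [Tr]

/-- Iterated differences. -/
def trs (l : List M) (φ : M → A) : M → A := l.foldr Tr φ

theorem trs_zero {n : ℕ} (l : List M) (hl : ∀ w ∈ l, Pu R E w) (hn : l.length = n) {φ : M → A}
    (h : Dg E n φ) (hR : Iv R φ) (p : M) : trs l φ p = 0 := by
  have key : ∀ (l : List M), (∀ w ∈ l, Pu R E w) → ∀ m, Dg E (m + l.length) φ →
      Dg E m (trs l φ) ∧ Iv R (trs l φ) := by
    intro l
    induction l with
    | nil => intro _ m hm; exact ⟨hm, hR⟩
    | cons w l ih =>
      intro hl m hm
      obtain ⟨h1, h2⟩ := ih (fun x hx => hl x (List.mem_cons_of_mem _ hx)) (m + 1) (by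
        have : m + 1 + l.length = m + (w :: l).length := by simp; omega
        rw [this]; exact hm)
      exact ⟨h1.tr h2 (hl w List.mem_cons_self), h2.tr w⟩
  have := (key l hl 0 (by rw [zero_add, hn]; exact h)).1
  exact this p

end

end Pool.Agent.Y466.FT
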