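import Pool.Agent.H835R2.Knot.Defs

/-!
# Braid words in diagrams
-/

set_option autoImplicit false

namespace Pool.Agent.Y466.FT

open Pool.Agent.H835R2.Knot

/-- A braid word: `(true, i)` is the crossing `pos i`, `(false, i)` the opposite crossing `neg i`. -/
abbrev Braid : Type := List (Bool × ℕ)

/-- The crossing of a letter. -/
def piece (l : Bool × ℕ) : Piece := if l.1 then Piece.pos l.2 else Piece.neg l.2

/-- The diagram of a braid word. -/
def draw (w : Braid) : Word := w.map piece

/-- The inverse braid word. -/
def inv (w : Braid) : Braid := (w.map fun l => (!l.1, l.2)).reverse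

/-- The power `w ^ m`, `m ∈ ℤ`. -/
def pow (w : Braid) : ℤ → Braid
  | Int.ofNat n => (List.replicate n w).flatten
  | Int.negSucc n => (List.replicate (n + 1) (inv w)).flatten

/-- The permutation of the strands. -/
def perm (w : Braid) : Equiv.Perm ℕ := (w.map fun l => Equiv.swap l.2 (l.2 + 1)).prod

/-- The braid word is pure: the permutation of its strands is trivial. -/
def IsPure (w : Braid) : Prop := perm w = 1

/-- The diagram `u₀ w₁^{q₁} u₁ w₂^{q₂} u₂ ⋯ w_k^{q_k} u_k`: powers of the braid words `w i` are
inserted at `k` places of the diagram `u₀ u₁ ⋯ u_k`. -/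
def family {k : ℕ} (u₀ : Word) (w : Fin k → Braid) (u : Fin k → Word) (q : Fin k → ℤ) : Word :=
  u₀ ++ (List.ofFn fun i => draw (pow (w i) (q i)) ++ u i).flatten

end Pool.Agent.Y466.FT
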