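import Pool.Agent.H835R2.Flat.Van
import Pool.Agent.Y466.FT.Defs

/-!
# Alternating sums over marked crossings
-/

set_option autoImplicit false

namespace Pool.Agent.Y466.FT

open Pool.Agent.H835R2 Pool.Agent.H835R2.Knot Pool.Agent.H835R2.Flat

variable {A : Type} [AddCommGroup A]

/-- Words with marked pieces. -/
abbrev MWord : Type := List (Piece × Bool)

/-- The alternating sum over all ways of switching marked pieces. -/
def malt : MWord → (Word → A) → A
  | [], g => g []
  | (p, false) :: D, g => malt D (fun u => g (p :: u))
  | (p, true) :: D, g => malt D (fun u => g (p :: u)) - malt D (fun u => g (p.switch :: u))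

/-- The places of the marks. -/
def mset (D : MWord) : Finset ℕ :=
  (Finset.range D.length).filter fun m => (D.getD m (.birth 0 true, false)).2 = true

theorem zero_mem_mset (p : Piece × Bool) (w : MWord) : 0 ∈ mset (p :: w) ↔ p.2 = true := by
  simp [mset]
theorem succ_mem_mset (m : ℕ) (p : Piece × Bool) (w : MWord) :
    m + 1 ∈ mset (p :: w) ↔ m ∈ mset w := by
  simp [mset]

theorem mset_cons (p : Piece × Bool) (w : MWord) : mset (p :: w) =
    (if p.2 = true then {0} else ∅) ∪ (mset w).map ⟨Nat.succ, Nat.succ_injective⟩ := by
  ext m
  simp only [Finset.mem_union, Finset.mem_map, Function.Embedding.coeFn_mk]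
  cases m with
  | zero =>
    rw [zero_mem_mset]
    by_cases h : p.2 = true <;> simp [h]
  | succ m =>
    rw [succ_mem_mset]
    constructor
    · intro h; exact Or.inr ⟨m, h, rfl⟩
    · rintro (h | ⟨m', h, h'⟩)
      · split_ifs at h <;> simp at h
      · obtain rfl : m' = m := Nat.succ_injective h'
        exact h

/-- The word without marks. -/
def pl (D : MWord) : Word := D.map Prod.fst

theorem malt_eq_sum (D : MWord) (g : Word → A) :
    malt D g = ∑ T ∈ (mset D).powerset, (-1 : ℤ) ^ T.card • g (switchAt T (pl D)) := by
  induction D generalizing g with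
  | nil =>
    have : mset [] = ∅ := rfl
    rw [this]
    simp [malt, switchAt, pl]
  | cons p w ih =>
    have shift : ∀ g : Word → A, ∀ q : Piece, (∑ T ∈ ((mset w).map
        ⟨Nat.succ, Nat.succ_injective⟩).powerset, (-1 : ℤ) ^ T.card • g (switchAt T (q :: pl w)))
        = malt w (fun u => g (q :: u)) := by
      intro g q
      rw [ih]
      have pm : ((mset w).map ⟨Nat.succ, Nat.succ_injective⟩).powerset =
          (mset w).powerset.map (Finset.mapEmbedding ⟨Nat.succ, Nat.succ_injective⟩).toEmbedding := by
        rw [Finset.map_eq_image, Finset.powerset_image, Finset.map_eq_image]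
        refine Finset.image_congr fun T _ => ?_
        show T.image _ = Finset.map _ T
        rw [Finset.map_eq_image]
      rw [pm, Finset.sum_map]
      refine Finset.sum_congr rfl fun T hT => ?_
      have e1 : ((Finset.mapEmbedding ⟨Nat.succ, Nat.succ_injective⟩).toEmbedding T).card =
          T.card := by
        show (Finset.map _ T).card = T.card
        exact Finset.card_map _
      have e2 : switchAt ((Finset.mapEmbedding ⟨Nat.succ, Nat.succ_injective⟩).toEmbedding T)
          (q :: pl w) = q :: switchAt T (pl w) := by
        rw [switchAt_cons_of _ T q (pl w), if_neg]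
        · show 0 ∉ Finset.map _ T
          simp
        · intro m
          show m + 1 ∈ Finset.map _ T ↔ m ∈ T
          simp
      rw [e1, e2]
    obtain ⟨p, b⟩ := p
    cases b with
    | true =>
      have hD : mset ((p, true) :: w) = insert 0 ((mset w).map ⟨Nat.succ, Nat.succ_injective⟩) := by
        rw [mset_cons, if_pos rfl]
        rfl
      have h0 : 0 ∉ (mset w).map ⟨Nat.succ, Nat.succ_injective⟩ := by simp
      rw [hD, Finset.sum_powerset_insert h0]
      show malt w (fun u => g (p :: u)) - malt w (fun u => g (p.switch :: u)) = _
      have e1 := shift g p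
      have e2 := shift g p.switch
      rw [← e1, ← e2, sub_eq_add_neg, ← Finset.sum_neg_distrib]
      congr 1
      refine Finset.sum_congr rfl fun T hT => ?_
      have hT0 : 0 ∉ T := fun h => h0 (Finset.mem_powerset.1 hT h)
      rw [Finset.card_insert_of_notMem hT0, pow_succ]
      have e3 : switchAt (insert 0 T) (pl ((p, true) :: w)) = switchAt T (p.switch :: pl w) := by
        show switchAt (insert 0 T) (p :: pl w) = _
        rw [switchAt_cons_of (insert 0 T) (T.preimage Nat.succ (Nat.succ_injective.injOn)) _ _
          (fun m => by simp), switchAt_cons_of T (T.preimage Nat.succ (Nat.succ_injective.injOn))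
          _ _ (fun m => by simp), if_pos (Finset.mem_insert_self _ _), if_neg hT0]
      rw [e3]
      simp
    | false =>
      have hD : mset ((p, false) :: w) = (mset w).map ⟨Nat.succ, Nat.succ_injective⟩ := by
        rw [mset_cons, if_neg (by simp), Finset.empty_union]
      rw [hD]
      have e1 := shift g p
      rw [show pl ((p, false) :: w) = p :: pl w from rfl, e1]
      rfl

/-- The number of marks. -/
def nm (D : MWord) : ℕ := D.countP Prod.snd

theorem mset_card (D : MWord) : (mset D).card = nm D := by
  induction D with
  | nil => rfl
  | cons p w ih =>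
    have hd : Disjoint (if p.2 = true then {0} else (∅ : Finset ℕ))
        ((mset w).map ⟨Nat.succ, Nat.succ_injective⟩) := by
      rw [Finset.disjoint_left]
      intro m h1 h2
      split_ifs at h1
      · rw [Finset.mem_singleton.1 h1] at h2
        simp at h2
      · simp at h1
    rw [mset_cons, Finset.card_union_of_disjoint hd, Finset.card_map, ih]
    unfold nm
    rw [List.countP_cons]
    cases p.2 <;> simp [add_comm]

theorem mset_subset (D : MWord) (h : ∀ x ∈ D, x.2 = true → x.1.isCrossing = true) :
    mset D ⊆ crossingSet (pl D) := by
  intro m hm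
  unfold mset at hm
  rw [Finset.mem_filter, Finset.mem_range] at hm
  unfold crossingSet
  have hl : (pl D).length = D.length := List.length_map _
  rw [Finset.mem_filter, Finset.mem_range]
  refine ⟨by rw [hl]; exact hm.1, by rw [hl]; exact hm.1, ?_⟩
  have h1 : D.getD m (.birth 0 true, false) = D[m] := List.getD_eq_getElem _ _ hm.1
  rw [h1] at hm
  have h2 : (pl D)[m]'(by rw [hl]; exact hm.1) = (D[m]'hm.1).1 := List.getElem_map _
  rw [h2]
  exact h _ (List.getElem_mem _) hm.2

/-- The value at a knot diagram, and zero for other words. -/
def ext (v : Word → A) (D : Word) : A := if IsKnot D then v D else 0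

theorem malt_append (x y : MWord) (g : Word → A) :
    malt (x ++ y) g = malt x (fun a => malt y (fun b => g (a ++ b))) := by
  induction x generalizing g with
  | nil => rfl
  | cons p x ih =>
    obtain ⟨p, b⟩ := p
    cases b with
    | true =>
      show malt (x ++ y) (fun u => g (p :: u)) - malt (x ++ y) (fun u => g (p.switch :: u)) =
        malt x _ - malt x _
      rw [ih, ih]
      rfl
    | false =>
      show malt (x ++ y) (fun u => g (p :: u)) = malt x _
      rw [ih]
      rfl

theorem malt_sub (x : MWord) (g h : Word → A) :
    malt x (fun u => g u - h u) = malt x g - malt x h := by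
  induction x generalizing g h with
  | nil => rfl
  | cons p x ih =>
    obtain ⟨p, b⟩ := p
    cases b with
    | true =>
      show malt x _ - malt x _ = (malt x _ - malt x _) - (malt x _ - malt x _)
      rw [ih, ih]
      abel
    | false =>
      show malt x _ = malt x _ - malt x _
      rw [ih]

theorem malt_mark (x y : MWord) (p : Piece) (g : Word → A) :
    malt (x ++ [(p, true)] ++ y) g =
      malt (x ++ [(p, false)] ++ y) g - malt (x ++ [(p.switch, false)] ++ y) g := by
  rw [List.append_assoc, List.append_assoc, List.append_assoc, malt_append, malt_append,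
    malt_append, ← malt_sub]
  rfl

theorem malt_plain (x : MWord) (h : nm x = 0) (g : Word → A) : malt x g = g (pl x) := by
  induction x generalizing g with
  | nil => rfl
  | cons p x ih =>
    obtain ⟨p, b⟩ := p
    unfold nm at h
    rw [List.countP_cons] at h
    cases b with
    | true => simp at h
    | false =>
      show malt x _ = _
      rw [ih (by unfold nm; simpa using h)]
      rfl

/-! ### switching crossings does not change the strands -/

theorem act_switch (p : Piece) (F : Front) : p.switch.act F = p.act F := by cases p <;> rfl
theorem fits_switch (p : Piece) (F : Front) : p.switch.Fits F ↔ p.Fits F := by cases p <;> rfl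
theorem closes_switch (p : Piece) (F : Front) : p.switch.closes F = p.closes F := by
  cases p <;> rfl

/-- The two words have the same strands, except for the signs of the crossings. -/
def Same (D E : Word) : Prop := List.Forall₂ (fun p q => q = p ∨ q = p.switch) D E

theorem Same.all {D E : Word} (h : Same D E) (F : Front) :
    Knot.run E F = Knot.run D F ∧ (Knot.Fits E F ↔ Knot.Fits D F) ∧
      Knot.comps E F = Knot.comps D F := by
  induction h generalizing F with
  | nil => exact ⟨rfl, Iff.rfl, rfl⟩
  | @cons p q D E h1 h2 ih =>
    have e1 : q.act F = p.act F := by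
      rcases h1 with rfl | rfl
      · rfl
      · exact act_switch _ _
    have e2 : q.Fits F ↔ p.Fits F := by
      rcases h1 with rfl | rfl
      · rfl
      · exact fits_switch _ _
    have e3 : q.closes F = p.closes F := by
      rcases h1 with rfl | rfl
      · rfl
      · exact closes_switch _ _
    obtain ⟨i1, i2, i3⟩ := ih (p.act F)
    refine ⟨?_, ?_, ?_⟩
    · show Knot.run E (q.act F) = Knot.run D (p.act F)
      rw [e1, i1]
    · show (q.Fits F ∧ Knot.Fits E (q.act F)) ↔ (p.Fits F ∧ Knot.Fits D (p.act F))
      rw [e1, e2, i2]
    · show (if q.closes F then 1 else 0) + Knot.comps E (q.act F) =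
        (if p.closes F then 1 else 0) + Knot.comps D (p.act F)
      rw [e1, e3, i3]

theorem Same.knot {D E : Word} (h : Same D E) : IsKnot E ↔ IsKnot D := by
  obtain ⟨h1, h2, h3⟩ := h.all Front.empty
  unfold IsKnot Closed
  rw [h1, h2, h3]

theorem Same.closed {D E : Word} (h : Same D E) : Closed E ↔ Closed D := by
  obtain ⟨h1, h2, h3⟩ := h.all Front.empty
  unfold Closed
  rw [h1, h2]

theorem Same.refl (D : Word) : Same D D := List.forall₂_same.2 fun _ _ => Or.inl rfl

theorem Same.switch (x y : Word) (p : Piece) : Same (x ++ [p] ++ y) (x ++ [p.switch] ++ y) :=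
  List.rel_append (List.rel_append (Same.refl x) (List.Forall₂.cons (Or.inr rfl) .nil)) (Same.refl y)

theorem Same.switchAt (T : Finset ℕ) (D : Word) : Same D (switchAt T D) := by
  unfold Same Knot.switchAt
  rw [List.forall₂_iff_get]
  refine ⟨by simp, fun i h1 h2 => ?_⟩
  simp only [List.get_eq_getElem, List.getElem_mapIdx]
  split_ifs
  · exact Or.inr rfl
  · exact Or.inl rfl

theorem malt_ext {n : ℕ} {v : Word → A} (h : DegreeLE n v) (D : MWord)
    (hD : ∀ x ∈ D, x.2 = true → x.1.isCrossing = true) (hn : nm D = n + 1) :
    malt D (ext v) = 0 := by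
  rw [malt_eq_sum]
  by_cases hk : IsKnot (pl D)
  · rw [← h (pl D) hk (mset D) (mset_subset D hD) (by rw [mset_card, hn])]
    refine Finset.sum_congr rfl fun T _ => ?_
    unfold ext
    rw [if_pos ((Same.switchAt T (pl D)).knot.2 hk)]
  · refine Finset.sum_eq_zero fun T _ => ?_
    unfold ext
    rw [if_neg (fun h' => hk ((Same.switchAt T (pl D)).knot.1 h')), smul_zero]

end Pool.Agent.Y466.FT
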