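import Mathlib

/-!
# Functions on `ℤ^k` all of whose `n`-fold differences vanish are polynomials
-/

set_option autoImplicit false

namespace Pool.Agent.Y466.FT

open Finset

section one
variable {A : Type*} [AddCommGroup A]

/-- the difference of a function on `ℤ` -/
def d1 (h : ℤ → A) : ℤ → A := fun x => h (x + 1) - h x

theorem const_of_d1 {h : ℤ → A} (e : ∀ x, h (x + 1) = h x) (x : ℤ) : h x = h 0 := by
  induction x using Int.induction_on with
  | zero => rfl
  | succ n ih => rw [e, ih]
  | pred n ih => rw [← ih, ← e (-(n : ℤ) - 1), sub_add_cancel]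

/-- **Newton's formula** on all of `ℤ`. -/
theorem newton1 (n : ℕ) (h : ℤ → A) (e : ∀ x, (d1^[n]) h x = 0) (x : ℤ) :
    h x = ∑ j ∈ range n, Ring.choose x j • (d1^[j]) h 0 := by
  induction n generalizing h x with
  | zero => simpa using e x
  | succ n ih =>
    have h1 := ih (d1 h) (fun x => by
      have := e x
      rwa [Function.iterate_succ_apply] at this)
    set g : ℤ → A := fun x => h x - ∑ j ∈ range (n + 1), Ring.choose x j • (d1^[j]) h 0 with hg
    have hg1 : ∀ x, g (x + 1) = g x := by
      intro x
      have h2 := h1 x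
      simp only [hg]
      rw [sum_range_succ', sum_range_succ' (fun j => Ring.choose x j • (d1^[j]) h 0)]
      have h3 : ∀ j, Ring.choose (x + 1) (j + 1) • (d1^[j+1]) h 0 =
          Ring.choose x (j + 1) • (d1^[j+1]) h 0 + Ring.choose x j • (d1^[j]) (d1 h) 0 := by
        intro j
        rw [Ring.choose_succ_succ, add_smul, Function.iterate_succ_apply]
        abel
      simp only [h3]
      rw [sum_add_distrib, ← h2]
      simp only [Ring.choose_zero_right]
      unfold d1
      abel
    have hg0 : g 0 = 0 := by
      simp only [hg]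
      rw [sum_range_succ']
      simp [Ring.choose_zero_succ]
    have := const_of_d1 hg1 x
    rw [hg0] at this
    exact sub_eq_zero.1 this

end one

section gen
variable {A : Type*} [AddCommGroup A] {ι κ : Type*} [DecidableEq ι] [DecidableEq κ]

/-- the difference in the direction `i` -/
def dl (i : ι) (f : (ι → ℤ) → A) : (ι → ℤ) → A :=
  fun q => f (q + Pi.single i 1) - f q

/-- all `n`-fold differences vanish -/
def PD : ℕ → ((ι → ℤ) → A) → Prop
  | 0, f => ∀ q, f q = 0
  | n+1, f => ∀ i, PD n (dl i f)

theorem PD.zero (n : ℕ) : PD n (fun _ : ι → ℤ => (0 : A)) := by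
  induction n with
  | zero => intro q; rfl
  | succ n ih =>
    intro i
    have : dl i (fun _ : ι → ℤ => (0 : A)) = fun _ => 0 := by
      funext q; exact sub_self _
    rw [this]
    exact ih

theorem PD.sub {n : ℕ} {f g : (ι → ℤ) → A} (hf : PD n f) (hg : PD n g) :
    PD n (fun q => f q - g q) := by
  induction n generalizing f g with
  | zero =>
    intro q
    show f q - g q = 0
    rw [hf q, hg q, sub_self]
  | succ n ih =>
    intro i
    have := ih (hf i) (hg i)
    have e : dl i (fun q => f q - g q) = fun q => dl i f q - dl i g q := by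
      funext q
      show (f _ - g _) - (f q - g q) = (f _ - f q) - (g _ - g q)
      abel
    rw [e]
    exact this

/-- A function of some of the variables. -/
theorem PD.comp {n : ℕ} {f : (κ → ℤ) → A} (hf : PD n f) (e : κ → ι) (he : Function.Injective e) :
    PD n (fun q : ι → ℤ => f (q ∘ e)) := by
  induction n generalizing f with
  | zero => intro q; exact hf _
  | succ n ih =>
    intro i
    by_cases hi : ∃ j, e j = i
    · obtain ⟨j, rfl⟩ := hi
      have h1 : dl (e j) (fun q : ι → ℤ => f (q ∘ e)) = fun q => dl j f (q ∘ e) := by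
        funext q
        show f ((q + Pi.single (e j) 1) ∘ e) - _ = f (q ∘ e + Pi.single j 1) - _
        congr 2
        funext l
        show q (e l) + (Pi.single (e j) 1 : ι → ℤ) (e l) = q (e l) + (Pi.single j 1 : κ → ℤ) l
        congr 1
        by_cases h : l = j
        · subst h; simp
        · rw [Pi.single_eq_of_ne (fun h' => h (he h')), Pi.single_eq_of_ne h]
      rw [h1]
      exact ih (hf j)
    · have h1 : dl i (fun q : ι → ℤ => f (q ∘ e)) = fun _ => 0 := by
        funext q
        show f ((q + Pi.single i 1) ∘ e) - f (q ∘ e) = 0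
        have : (q + Pi.single i 1) ∘ e = q ∘ e := by
          funext l
          show q (e l) + (Pi.single i 1 : ι → ℤ) (e l) = q (e l)
          rw [Pi.single_eq_of_ne (fun h' => hi ⟨l, h'⟩), add_zero]
        rw [this, sub_self]
      rw [h1]
      exact PD.zero n

theorem PD.const {f : (ι → ℤ) → A} [Fintype ι] (h : PD 1 f) (q q' : ι → ℤ) : f q = f q' := by
  have step : ∀ (j : ι) (q : ι → ℤ), f (q + Pi.single j 1) = f q := fun j q =>
    sub_eq_zero.1 (h j q)
  have step' : ∀ (j : ι) (x : ℤ) (q : ι → ℤ), f (q + Pi.single j x) = f q := by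
    intro j x q
    have := const_of_d1 (h := fun x => f (q + Pi.single j x)) (fun x => by
      have := step j (q + Pi.single j x)
      rw [add_assoc, ← Pi.single_add] at this
      exact this) x
    simpa using this
  have all : ∀ (s : Finset ι) (d q : ι → ℤ), f (q + ∑ j ∈ s, Pi.single j (d j)) = f q := by
    intro s
    induction s using Finset.induction_on with
    | empty => intro d q; simp
    | insert j s hj ih =>
      intro d q
      rw [Finset.sum_insert hj, add_comm (Pi.single j (d j) : ι → ℤ), ← add_assoc, step', ih]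
  have h1 := all Finset.univ (q' - q) q
  rw [Finset.univ_sum_single] at h1
  rw [← h1]
  congr 1
  abel

/-- A polynomial function of degree at most `n` is zero if it vanishes on a simplex of size `n`. -/
theorem PD.simplex {n : ℕ} [Fintype ι] {f : (ι → ℤ) → A} (h : PD (n + 1) f) (a : ι → ℤ)
    (h0 : ∀ q, a ≤ q → ∑ i, (q i - a i) ≤ n → f q = 0) (q : ι → ℤ) : f q = 0 := by
  induction n generalizing f q with
  | zero =>
    rw [PD.const h q a]
    exact h0 a le_rfl (by simp)
  | succ n ih =>
    have h1 : PD 1 f := by
      intro i q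
      refine ih (h i) (fun q hq hs => ?_) q
      show f (q + Pi.single i 1) - f q = 0
      have e : ∑ j, ((q + Pi.single i 1 : ι → ℤ) j - a j) = ∑ j, (q j - a j) + 1 := by
        have : ∀ j, (q + Pi.single i 1 : ι → ℤ) j - a j =
            (q j - a j) + (Pi.single i 1 : ι → ℤ) j := by
          intro j
          show q j + (Pi.single i 1 : ι → ℤ) j - a j = _
          ring
        simp only [this]
        rw [Finset.sum_add_distrib, Finset.sum_pi_single', if_pos (Finset.mem_univ _)]
      have h5 : a ≤ q + Pi.single i 1 := by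
        intro j
        have h3 : a j ≤ q j := hq j
        have h4 : (0 : ℤ) ≤ (Pi.single i 1 : ι → ℤ) j := by
          by_cases h : j = i
          · subst h; simp
          · rw [Pi.single_eq_of_ne h]
        show a j ≤ q j + (Pi.single i 1 : ι → ℤ) j
        omega
      rw [h0 _ h5 (by rw [e]; push_cast; omega), h0 q hq (by push_cast; omega), sub_zero]
    rw [PD.const h1 q a]
    exact h0 a le_rfl (by simp; omega)

end gen

section multi
variable {A : Type*} [AddCommGroup A] {k : ℕ}

theorem PD.iter {n : ℕ} {f : (Fin k → ℤ) → A} (i : Fin k) (j : ℕ) (h : PD (n + j) f) :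
    PD n ((dl i)^[j] f) := by
  induction j generalizing f with
  | zero => exact h
  | succ j ih =>
    rw [Function.iterate_succ_apply]
    exact ih (h i)

theorem PD.cons {n : ℕ} {f : (Fin (k + 1) → ℤ) → A} (h : PD n f) (x : ℤ) :
    PD n (fun q : Fin k → ℤ => f (Fin.cons x q)) := by
  induction n generalizing f with
  | zero => intro q; exact h _
  | succ n ih =>
    intro i
    have := ih (h i.succ)
    have e : dl i (fun q : Fin k → ℤ => f (Fin.cons x q)) =
        fun q => dl i.succ f (Fin.cons x q) := by
      funext q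
      unfold dl
      have e1 : (Fin.cons x (q + Pi.single i 1) : Fin (k + 1) → ℤ) =
          Fin.cons x q + Pi.single i.succ 1 := by
        funext l
        refine Fin.cases ?_ (fun l => ?_) l
        · simp [Pi.single_apply, (Fin.succ_ne_zero i).symm]
        · simp [Pi.single_apply, Fin.succ_inj]
      show f (Fin.cons x (q + Pi.single i 1)) - f (Fin.cons x q) = _
      rw [e1]
    rw [e]
    exact this

theorem iter_cons (f : (Fin (k + 1) → ℤ) → A) (q : Fin k → ℤ) (j : ℕ) (x : ℤ) :
    (d1^[j]) (fun x => f (Fin.cons x q)) x = ((dl 0)^[j] f) (Fin.cons x q) := by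
  induction j generalizing f x with
  | zero => rfl
  | succ j ih =>
    rw [Function.iterate_succ_apply, Function.iterate_succ_apply]
    have e : d1 (fun x => f (Fin.cons x q)) = fun x => dl 0 f (Fin.cons x q) := by
      funext x
      unfold d1 dl
      have e1 : (Fin.cons (x + 1) q : Fin (k + 1) → ℤ) = Fin.cons x q + Pi.single 0 1 := by
        funext l
        refine Fin.cases ?_ (fun l => ?_) l
        · simp
        · simp [Pi.single_apply, Fin.succ_ne_zero l]
      show f (Fin.cons (x + 1) q) - f (Fin.cons x q) = _
      rw [e1]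
    rw [e]
    exact ih (dl 0 f) x

theorem cons_eq (q : Fin (k + 1) → ℤ) : (Fin.cons (q 0) (fun i => q i.succ) : Fin (k + 1) → ℤ) = q := by
  funext l
  refine Fin.cases ?_ (fun l => ?_) l <;> rfl

theorem newton_cons {n : ℕ} {f : (Fin (k + 1) → ℤ) → A} (h : PD n f) (q : Fin (k + 1) → ℤ) :
    f q = ∑ j ∈ range n, Ring.choose (q 0) j • ((dl 0)^[j] f) (Fin.cons 0 (fun i => q i.succ)) := by
  have h1 := newton1 n (fun x => f (Fin.cons x (fun i => q i.succ))) (fun x => by
    rw [iter_cons]
    exact PD.iter (n := 0) 0 n (by rwa [zero_add]) _) (q 0)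
  simp only [cons_eq] at h1
  rw [h1]
  refine sum_congr rfl fun j _ => ?_
  rw [iter_cons]

end multi

/-- The binomial polynomials. -/
theorem exists_bin (j : ℕ) : ∃ B : Polynomial ℚ, B.natDegree ≤ j ∧
    ∀ x : ℤ, B.eval (x : ℚ) = (Ring.choose x j : ℤ) := by
  refine ⟨Polynomial.C ((j.factorial : ℚ)⁻¹) * (descPochhammer ℤ j).map (Int.castRingHom ℚ),
    ?_, fun x => ?_⟩
  · refine (Polynomial.natDegree_C_mul_le _ _).trans ?_
    refine Polynomial.natDegree_map_le.trans ?_
    exact (descPochhammer_natDegree ℤ j).le
  · have h1 := Ring.choose_eq_smul (R := ℚ) (a := (x : ℚ)) (n := j)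
    have h2 : ((Ring.choose x j : ℤ) : ℚ) = Ring.choose (x : ℚ) j := by
      have := Ring.map_choose (Int.castRingHom ℚ) x j
      simpa using this
    rw [h2, h1, Polynomial.eval_mul, Polynomial.eval_C, Polynomial.eval_map, smul_eq_mul]
    congr 1
    rw [← Polynomial.aeval_eq_smeval, Polynomial.aeval_def]
    rfl

/-- **Polynomiality.** -/
theorem exists_poly (k n : ℕ) (f : (Fin k → ℤ) → ℚ) (h : PD (n + 1) f) :
    ∃ P : MvPolynomial (Fin k) ℚ, P.totalDegree ≤ n ∧
      ∀ q : Fin k → ℤ, f q = MvPolynomial.eval (fun i => (q i : ℚ)) P := by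
  induction k generalizing n with
  | zero =>
    refine ⟨MvPolynomial.C (f 0), by simp, fun q => ?_⟩
    rw [MvPolynomial.eval_C, Subsingleton.elim q 0]
  | succ k ih =>
    choose B hB hB' using exists_bin
    have h1 : ∀ j, j ≤ n → ∃ G : MvPolynomial (Fin k) ℚ, G.totalDegree ≤ n - j ∧
        ∀ q : Fin k → ℤ, ((dl 0)^[j] f) (Fin.cons 0 q) =
          MvPolynomial.eval (fun i => (q i : ℚ)) G := by
      intro j hj
      apply ih
      apply PD.cons
      apply PD.iter
      have : n - j + 1 + j = n + 1 := by omega
      rwa [this]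
    choose! G hG hG' using h1
    refine ⟨∑ j ∈ range (n + 1), Polynomial.aeval (MvPolynomial.X 0) (B j) *
      MvPolynomial.rename Fin.succ (G j), ?_, fun q => ?_⟩
    · refine MvPolynomial.totalDegree_finsetSum_le fun j hj => ?_
      rw [mem_range] at hj
      refine (MvPolynomial.totalDegree_mul _ _).trans ?_
      have e1 : (Polynomial.aeval (MvPolynomial.X (0 : Fin (k + 1))) (B j) :
          MvPolynomial (Fin (k + 1)) ℚ).totalDegree ≤ j := by
        rw [Polynomial.aeval_eq_sum_range]
        refine MvPolynomial.totalDegree_finsetSum_le fun i hi => ?_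
        rw [mem_range] at hi
        refine (MvPolynomial.totalDegree_smul_le _ _).trans ?_
        refine (MvPolynomial.totalDegree_pow _ _).trans ?_
        rw [MvPolynomial.totalDegree_X, mul_one]
        have := hB j
        omega
      have e2 : (MvPolynomial.rename Fin.succ (G j) :
          MvPolynomial (Fin (k + 1)) ℚ).totalDegree ≤ n - j :=
        (MvPolynomial.totalDegree_rename_le _ _).trans (hG j (by omega))
      omega
    · rw [newton_cons h q, map_sum]
      refine sum_congr rfl fun j hj => ?_
      rw [mem_range] at hj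
      rw [hG' j (by omega), map_mul, MvPolynomial.eval_rename]
      have e1 : MvPolynomial.eval (fun i => (q i : ℚ))
          (Polynomial.aeval (MvPolynomial.X (0 : Fin (k + 1))) (B j)) = (B j).eval (q 0 : ℚ) := by
        have := Polynomial.aeval_algHom_apply (MvPolynomial.aeval (fun i => (q i : ℚ)) :
          MvPolynomial (Fin (k + 1)) ℚ →ₐ[ℚ] ℚ) (MvPolynomial.X 0) (B j)
        rw [MvPolynomial.aeval_X, MvPolynomial.aeval_eq_eval] at this
        rw [← Polynomial.coe_aeval_eq_eval]
        exact this.symm
      rw [e1, hB' j, zsmul_eq_mul]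
      rfl

end Pool.Agent.Y466.FT
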