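import Pool.Agent.Y466.FT.Alt
import Pool.Agent.Y466.FT.Abs
import Pool.Agent.Y466.FT.Newton
import Pool.Agent.Y463.SK.Cox

/-!
# Families of diagrams with powers of pure braids
-/

set_option autoImplicit false

namespace Pool.Agent.Y466.FT

open Pool.Agent.H835R2 Pool.Agent.H835R2.Knot Pool.Agent.H835R2.Flat

/-! ### Inserting words at several places -/

section plug
variable {α β : Type} {k : ℕ}

/-- The words `p i` inserted at the places. -/
def plug (u₀ : List α) (u : Fin k → List α) (d : β → α) (p : Fin k → FreeMonoid β) : List α :=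
  u₀ ++ (List.ofFn fun i => (p i).toList.map d ++ u i).flatten

theorem ofFn_update (f : Fin k → List α) (j : Fin k) (z : List α) :
    List.ofFn (Function.update f j z) =
      (List.ofFn f).take j ++ [z] ++ (List.ofFn f).drop (j + 1) := by
  induction k with
  | zero => exact j.elim0
  | succ k ih =>
    rw [List.ofFn_succ, List.ofFn_succ]
    refine Fin.cases ?_ (fun j => ?_) j
    · have : (fun i : Fin k => Function.update f 0 z i.succ) = fun i => f i.succ := by
        funext i
        rw [Function.update_of_ne (Fin.succ_ne_zero i)]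
      rw [this]
      simp
    · have : (fun i : Fin k => Function.update f j.succ z i.succ) =
          Function.update (fun i => f i.succ) j z := by
        funext i
        by_cases h : i = j
        · subst h; simp
        · rw [Function.update_of_ne (fun h' => h (Fin.succ_injective _ h')),
            Function.update_of_ne h]
      rw [this, ih, Function.update_of_ne (Fin.succ_ne_zero j).symm]
      simp

/-- The part above the place `j`. -/
def above (u₀ : List α) (u : Fin k → List α) (d : β → α) (p : Fin k → FreeMonoid β) (j : Fin k) :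
    List α :=
  u₀ ++ ((List.ofFn fun i => (p i).toList.map d ++ u i).take j).flatten

theorem plug_single (u₀ : List α) (u : Fin k → List α) (d : β → α) (P Q : Fin k → FreeMonoid β)
    (j : Fin k) : ∃ y, ∀ l : FreeMonoid β, plug u₀ u d (P * Pi.mulSingle j l * Q) =
      (above u₀ u d (P * Q) j ++ (P j).toList.map d) ++ l.toList.map d ++ y := by
  refine ⟨(Q j).toList.map d ++ u j ++
    ((List.ofFn fun i => ((P * Q) i).toList.map d ++ u i).drop (j + 1)).flatten, fun l => ?_⟩
  unfold plug above
  have e : (fun i => ((P * Pi.mulSingle j l * Q : Fin k → FreeMonoid β) i).toList.map d ++ u i) =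
      Function.update (fun i => ((P * Q) i).toList.map d ++ u i) j
        ((P j).toList.map d ++ l.toList.map d ++ (Q j).toList.map d ++ u j) := by
    funext i
    by_cases h : i = j
    · subst h
      rw [Function.update_self, Pi.mul_apply, Pi.mul_apply, Pi.mulSingle_eq_same]
      simp [FreeMonoid.toList_mul]
    · rw [Function.update_of_ne h, Pi.mul_apply, Pi.mul_apply, Pi.mulSingle_eq_of_ne h, mul_one,
        Pi.mul_apply]
  rw [e, ofFn_update]
  simp

end plug

/-! ### Numbers of strands -/

/-- The number of strands below a word, if there are `n` strands above it. -/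
def wdt : Word → ℕ → ℕ
  | [], n => n
  | .birth _ _ :: w, n => wdt w (n + 2)
  | .death _ :: w, n => wdt w (n - 2)
  | .pos _ :: w, n => wdt w n
  | .neg _ :: w, n => wdt w n

theorem run_n (w : Word) (F : Front) : (Knot.run w F).n = wdt w F.n := by
  induction w generalizing F with
  | nil => rfl
  | cons p w ih =>
    show (Knot.run w (p.act F)).n = _
    rw [ih]
    cases p <;> rfl

theorem wdt_append (x y : Word) (n : ℕ) : wdt (x ++ y) n = wdt y (wdt x n) := by
  induction x generalizing n with
  | nil => rfl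
  | cons p x ih => cases p <;> exact ih _

theorem wdt_draw (w : Braid) (n : ℕ) : wdt (draw w) n = n := by
  induction w generalizing n with
  | nil => rfl
  | cons l w ih =>
    obtain ⟨b, i⟩ := l
    cases b <;> exact ih n

theorem wdt_flatten {l l' : List Word} (h : List.Forall₂ (fun a b => ∀ n, wdt a n = wdt b n) l l')
    (n : ℕ) : wdt l.flatten n = wdt l'.flatten n := by
  induction h generalizing n with
  | nil => rfl
  | cons h1 _ ih =>
    rw [List.flatten_cons, List.flatten_cons, wdt_append, wdt_append, h1, ih]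

section
variable {k : ℕ} (u₀ : Word) (u : Fin k → Word)

/-- The number of strands at the place `j`. -/
def wd (j : Fin k) : ℕ := wdt (u₀ ++ ((List.ofFn u).take j).flatten) 0

theorem wdt_above (p : Fin k → FreeMonoid (Bool × ℕ)) (j : Fin k) (w : Braid) :
    wdt (above u₀ u piece p j ++ draw w) 0 = wd u₀ u j := by
  unfold above wd
  rw [wdt_append, wdt_draw, wdt_append, wdt_append]
  apply wdt_flatten
  apply List.forall₂_take
  rw [List.forall₂_iff_get]
  refine ⟨by simp, fun i h1 h2 n => ?_⟩
  simp only [List.get_eq_getElem, List.getElem_ofFn]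
  rw [wdt_append]
  congr 1
  exact wdt_draw _ _

theorem fits_draw {F : Front} {w : Braid} (h : ∀ l ∈ w, l.2 + 1 < F.n) :
    Knot.Fits (draw w) F := by
  induction w generalizing F with
  | nil => trivial
  | cons l w ih =>
    obtain ⟨b, i⟩ := l
    have h0 : i + 1 < F.n := h (b, i) List.mem_cons_self
    have h1 : ∀ l ∈ w, l.2 + 1 < F.n := fun l hl => h l (List.mem_cons_of_mem _ hl)
    cases b
    · exact ⟨by show i + 2 ≤ F.n; omega, ih h1⟩
    · exact ⟨by show i + 2 ≤ F.n; omega, ih h1⟩

theorem of_fits_draw {F : Front} {w : Braid} (h : Knot.Fits (draw w) F) :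
    ∀ l ∈ w, l.2 + 1 < F.n := by
  induction w generalizing F with
  | nil => intro l hl; exact absurd hl (by simp)
  | cons l w ih =>
    obtain ⟨b, i⟩ := l
    intro l hl
    rcases List.mem_cons.1 hl with rfl | hl'
    · cases b
      · have : i + 2 ≤ F.n := h.1
        show i + 1 < F.n
        omega
      · have : i + 2 ≤ F.n := h.1
        show i + 1 < F.n
        omega
    · cases b
      · exact ih h.2 l hl'
      · exact ih h.2 l hl'

end

/-! ### The relations -/

/-- The braid relations on `m` strands. -/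
inductive Loc (m : ℕ) : Braid → Braid → Prop
  | can (b : Bool) (i : ℕ) : i + 1 < m → Loc m [(b, i), (!b, i)] []
  | far (b c : Bool) (i j : ℕ) : i + 2 ≤ j → j + 1 < m → Loc m [(b, i), (c, j)] [(c, j), (b, i)]
  | br (i : ℕ) : i + 2 < m →
      Loc m [(true, i), (true, i + 1), (true, i)] [(true, i + 1), (true, i), (true, i + 1)]

section rel
variable {k : ℕ} (m : Fin k → ℕ)

/-- The braid relations at all places. -/
def RS : Set ((Fin k → FreeMonoid (Bool × ℕ)) × (Fin k → FreeMonoid (Bool × ℕ))) :=
  {r | ∃ j l l', Loc (m j) l l' ∧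
    r = (Pi.mulSingle j (FreeMonoid.ofList l), Pi.mulSingle j (FreeMonoid.ofList l'))}

/-- Pairs of opposite crossings. -/
def ES : Set ((Fin k → FreeMonoid (Bool × ℕ)) × (Fin k → FreeMonoid (Bool × ℕ))) :=
  {e | ∃ j i, i + 1 < m j ∧
    e = (Pi.mulSingle j (FreeMonoid.ofList [(true, i)]),
      Pi.mulSingle j (FreeMonoid.ofList [(false, i)]))}

variable {m}

/-- The class of a letter. -/
def cl (c : Con (Fin k → FreeMonoid (Bool × ℕ))) (j : Fin k) : FreeMonoid (Bool × ℕ) →* c.Quotient :=
  c.mk'.comp (MonoidHom.mulSingle (fun _ : Fin k => FreeMonoid (Bool × ℕ)) j)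

theorem cl_eq {c : Con (Fin k → FreeMonoid (Bool × ℕ))} {j : Fin k}
    {l l' : FreeMonoid (Bool × ℕ)} : cl c j l = cl c j l' ↔
      c (Pi.mulSingle j l) (Pi.mulSingle j l') := Con.eq c

theorem cl_loc {c : Con (Fin k → FreeMonoid (Bool × ℕ))} (hR : ∀ r ∈ RS m, c r.1 r.2) {j : Fin k}
    {l l' : Braid} (h : Loc (m j) l l') :
    cl c j (FreeMonoid.ofList l) = cl c j (FreeMonoid.ofList l') :=
  cl_eq.2 (hR _ ⟨j, l, l', h, rfl⟩)

theorem inv_cons (l : Bool × ℕ) (w : Braid) : inv (l :: w) = inv w ++ [(!l.1, l.2)] := by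
  simp [inv]

theorem cl_inv {c : Con (Fin k → FreeMonoid (Bool × ℕ))} (hR : ∀ r ∈ RS m, c r.1 r.2) {j : Fin k}
    {w : Braid} (hw : ∀ l ∈ w, l.2 + 1 < m j) :
    cl c j (FreeMonoid.ofList (w ++ inv w)) = 1 := by
  induction w with
  | nil => exact map_one _
  | cons l w ih =>
    have ih' := ih fun x hx => hw x (List.mem_cons_of_mem _ hx)
    have e : (l :: w) ++ inv (l :: w) = [l] ++ (w ++ inv w) ++ [(!l.1, l.2)] := by
      rw [inv_cons]; simp
    rw [e, FreeMonoid.ofList_append, FreeMonoid.ofList_append, map_mul, map_mul, ih', mul_one,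
      ← map_mul, ← FreeMonoid.ofList_append]
    have := cl_loc hR (Loc.can l.1 l.2 (hw l List.mem_cons_self))
    exact this.trans (map_one _)

theorem cl_pure {c : Con (Fin k → FreeMonoid (Bool × ℕ))} (hR : ∀ r ∈ RS m, c r.1 r.2)
    (hE : ∀ e ∈ ES m, c e.1 e.2) {j : Fin k} {w : Braid} (hw : ∀ l ∈ w, l.2 + 1 < m j)
    (hp : IsPure w) : cl c j (FreeMonoid.ofList w) = 1 := by
  set s : ℕ → c.Quotient := fun i => cl c j (FreeMonoid.ofList [(true, i)]) with hs
  have hf : ∀ i, i + 1 < m j → cl c j (FreeMonoid.ofList [(false, i)]) = s i := fun i hi =>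
    (cl_eq.2 (hE _ ⟨j, i, hi, rfl⟩)).symm
  have hcox : Pool.Agent.Y463.SK.IsCox (m j) s := by
    refine ⟨fun i hi => ?_, fun i hi => ?_, fun i l hl hil => ?_⟩
    · have h1 := cl_loc hR (Loc.can true i hi)
      have e1 : ([(true, i), (!true, i)] : Braid) = [(true, i)] ++ [(false, i)] := rfl
      rw [e1, FreeMonoid.ofList_append, map_mul, hf i hi] at h1
      exact h1.trans (map_one _)
    · have h1 := cl_loc hR (Loc.br i hi)
      have e1 : ([(true, i), (true, i + 1), (true, i)] : Braid) =
        [(true, i)] ++ [(true, i + 1)] ++ [(true, i)] := rfl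
      have e2 : ([(true, i + 1), (true, i), (true, i + 1)] : Braid) =
        [(true, i + 1)] ++ [(true, i)] ++ [(true, i + 1)] := rfl
      rw [e1, e2] at h1
      simp only [FreeMonoid.ofList_append, map_mul] at h1
      exact h1
    · have h1 := cl_loc hR (Loc.far true true i l hil hl)
      have e1 : ([(true, i), (true, l)] : Braid) = [(true, i)] ++ [(true, l)] := rfl
      have e2 : ([(true, l), (true, i)] : Braid) = [(true, l)] ++ [(true, i)] := rfl
      rw [e1, e2] at h1
      simp only [FreeMonoid.ofList_append, map_mul] at h1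
      exact h1
  have h2 : cl c j (FreeMonoid.ofList w) = ((w.map Prod.snd).map s).prod := by
    clear hp
    induction w with
    | nil => exact map_one _
    | cons l w ih =>
      have ih' := ih fun x hx => hw x (List.mem_cons_of_mem _ hx)
      have e : l :: w = [l] ++ w := rfl
      rw [e, FreeMonoid.ofList_append, map_mul, ih']
      rw [List.map_append, List.map_append, List.prod_append]
      congr 1
      rw [List.map_cons, List.map_cons, List.map_nil, List.map_nil, List.prod_singleton]
      obtain ⟨b, i⟩ := l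
      cases b
      · exact hf i (hw _ List.mem_cons_self)
      · rfl
  rw [h2]
  refine Pool.Agent.Y463.SK.cox_word hcox _ (fun i hi => ?_) ?_
  · obtain ⟨l, hl, rfl⟩ := List.mem_map.1 hi
    exact hw l hl
  · rw [List.map_map]
    exact hp

theorem pu {w : Braid} {j : Fin k} (hw : ∀ l ∈ w, l.2 + 1 < m j) (hp : IsPure w) :
    Pu (RS m) (ES m) (Pi.mulSingle j (FreeMonoid.ofList w)) := by
  intro c hR hE
  have := cl_pure hR hE hw hp
  rw [← map_one (cl c j), cl_eq, Pi.mulSingle_one] at this
  exact this

/-! ### Powers -/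

theorem pow_add_one {c : Con (Fin k → FreeMonoid (Bool × ℕ))} (hR : ∀ r ∈ RS m, c r.1 r.2)
    {j : Fin k} {w : Braid} (hw : ∀ l ∈ w, l.2 + 1 < m j) (q : ℤ) :
    cl c j (FreeMonoid.ofList w * FreeMonoid.ofList (pow w q)) =
      cl c j (FreeMonoid.ofList (pow w (q + 1))) := by
  cases q with
  | ofNat n =>
    have : pow w (Int.ofNat n + 1) = w ++ pow w (Int.ofNat n) := by
      show (List.replicate (n + 1) w).flatten = w ++ (List.replicate n w).flatten
      rw [List.replicate_succ, List.flatten_cons]
    rw [this, FreeMonoid.ofList_append]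
  | negSucc n =>
    have h1 : pow w (Int.negSucc n) = inv w ++ (List.replicate n (inv w)).flatten := by
      show (List.replicate (n + 1) (inv w)).flatten = _
      rw [List.replicate_succ, List.flatten_cons]
    have h2 : pow w (Int.negSucc n + 1) = (List.replicate n (inv w)).flatten := by
      cases n with
      | zero => rfl
      | succ n => rfl
    rw [h2, h1, FreeMonoid.ofList_append, ← mul_assoc, ← FreeMonoid.ofList_append, map_mul,
      cl_inv hR hw, one_mul]

/-- The powers at all places. -/
def pw (w : Fin k → Braid) (q : Fin k → ℤ) : Fin k → FreeMonoid (Bool × ℕ) :=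
  fun j => FreeMonoid.ofList (pow (w j) (q j))

theorem split_single (p : Fin k → FreeMonoid (Bool × ℕ)) (j : Fin k) :
    p = Pi.mulSingle j (p j) * Function.update p j 1 := by
  funext i
  by_cases h : i = j
  · subst h; simp
  · rw [Pi.mul_apply, Pi.mulSingle_eq_of_ne h, Function.update_of_ne h, one_mul]

theorem pw_step {c : Con (Fin k → FreeMonoid (Bool × ℕ))} (hR : ∀ r ∈ RS m, c r.1 r.2)
    {w : Fin k → Braid} (hw : ∀ j, ∀ l ∈ w j, l.2 + 1 < m j) (q : Fin k → ℤ) (j : Fin k) :
    c (Pi.mulSingle j (FreeMonoid.ofList (w j)) * pw w q) (pw w (q + Pi.single j 1)) := by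
  rw [split_single (pw w q) j, split_single (pw w (q + Pi.single j 1)) j, ← mul_assoc,
    ← Pi.mulSingle_mul]
  refine c.mul ?_ ?_
  · refine cl_eq.1 ?_
    have := pow_add_one hR (hw j) (q j)
    rw [show (pw w (q + Pi.single j 1)) j = FreeMonoid.ofList (pow (w j) (q j + 1)) by simp [pw]]
    exact this
  · have : Function.update (pw w q) j 1 = Function.update (pw w (q + Pi.single j 1)) j 1 := by
      funext i
      by_cases h : i = j
      · subst h; simp
      · rw [Function.update_of_ne h, Function.update_of_ne h]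
        simp [pw, h]
    rw [this]
    exact c.refl _

/-- The congruence of all pairs which `φ` does not distinguish. -/
def cphi {M A : Type*} [Monoid M] (φ : M → A) : Con M where
  r p p' := ∀ a b : M, φ (a * p * b) = φ (a * p' * b)
  iseqv := ⟨fun _ _ _ => rfl, fun h a b => (h a b).symm, fun h h' a b => (h a b).trans (h' a b)⟩
  mul' := by
    intro p p' r r' h h' a b
    have h1 := h a (r * b)
    have h2 := h' (a * p') b
    simp only [mul_assoc] at h1 h2 ⊢
    exact h1.trans h2

theorem pd_of_dg {A : Type*} [AddCommGroup A] {n : ℕ} {φ : (Fin k → FreeMonoid (Bool × ℕ)) → A}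
    (hd : Dg (ES m) n φ) (hi : Iv (RS m) φ) {w : Fin k → Braid}
    (hw : ∀ j, ∀ l ∈ w j, l.2 + 1 < m j) (hp : ∀ j, IsPure (w j)) :
    PD n (fun q => φ (pw w q)) := by
  induction n generalizing φ with
  | zero => intro q; exact hd _
  | succ n ih =>
    intro j
    have h1 := ih (hd.tr hi (pu (hw j) (hp j))) (hi.tr _)
    have e : dl j (fun q => φ (pw w q)) =
        fun q => Tr (Pi.mulSingle j (FreeMonoid.ofList (w j))) φ (pw w q) := by
      funext q
      have h2 := pw_step (c := cphi φ) (fun r hr => hi r hr) hw q j 1 1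
      simp only [one_mul, mul_one] at h2
      show φ _ - φ _ = φ _ - φ _
      rw [h2]
    rw [e]
    exact h1

end rel

/-! ### Functions on the monoid given by invariants -/

section
variable {k : ℕ} (u₀ : Word) (u : Fin k → Word) {A : Type} [AddCommGroup A]

/-- The value of `v` at the diagram with the given words at the places. -/
def phi (v : Word → A) (p : Fin k → FreeMonoid (Bool × ℕ)) : A := ext v (plug u₀ u piece p)

omit [AddCommGroup A] in
theorem isKnot_move {x y l r : Word} (m : Move l r ∨ Move r l)
    (fr : Knot.Fits r (Knot.run x Front.empty)) (hk : IsKnot (x ++ l ++ y)) :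
    IsKnot (x ++ r ++ y) ∧ Isotopic (x ++ l ++ y) (x ++ r ++ y) := by
  obtain ⟨h1, h2⟩ := iso_step m hk.1 fr
  exact ⟨(isotopic_knot h2).1 hk, h2⟩

theorem ext_move {v : Word → A} (hv : IsInvariant v) {x y l r : Word} (m : Move l r ∨ Move r l)
    (fl : Knot.Fits l (Knot.run x Front.empty)) (fr : Knot.Fits r (Knot.run x Front.empty)) :
    ext v (x ++ l ++ y) = ext v (x ++ r ++ y) := by
  unfold ext
  by_cases h : IsKnot (x ++ l ++ y)
  · obtain ⟨h1, h2⟩ := isKnot_move m fr h
    rw [if_pos h, if_pos h1, hv _ _ h h2]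
  · have h' : ¬ IsKnot (x ++ r ++ y) := fun h1 => h (isKnot_move m.symm fl h1).1
    rw [if_neg h, if_neg h']

theorem move_loc {m : ℕ} {l l' : Braid} (h : Loc m l l') :
    Move (draw l) (draw l') ∨ Move (draw l') (draw l) := by
  cases h with
  | can b i hi =>
    cases b
    · exact Or.inl (Move.second₂ i)
    · exact Or.inl (Move.second₁ i)
  | far b c i j hij hj =>
    left
    have h2 : i + 2 ≤ j := hij
    cases b <;> cases c
    · exact Move.exchange (.neg i) (.neg j) h2
    · exact Move.exchange (.neg i) (.pos j) h2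
    · exact Move.exchange (.pos i) (.neg j) h2
    · exact Move.exchange (.pos i) (.pos j) h2
  | br i hi => exact Or.inl (Move.third i)

theorem loc_lt {m : ℕ} {l l' : Braid} (h : Loc m l l') :
    (∀ x ∈ l, x.2 + 1 < m) ∧ (∀ x ∈ l', x.2 + 1 < m) := by
  cases h with
  | can b i hi => simp [hi]
  | far b c i j hij hj =>
    have : i + 1 < m := by omega
    simp [this, hj]
  | br i hi =>
    have h1 : i + 1 < m := by omega
    have h2 : i + 1 + 1 < m := by omega
    simp [h1, h2]

theorem iv_phi {v : Word → A} (hv : IsInvariant v) : Iv (RS (wd u₀ u)) (phi u₀ u v) := by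
  rintro r ⟨j, l, l', h, rfl⟩ a b
  obtain ⟨y, hy⟩ := plug_single u₀ u piece a b j
  unfold phi
  rw [hy, hy]
  have hn : (Knot.run (above u₀ u piece (a * b) j ++ draw (a j).toList) Front.empty).n =
      wd u₀ u j := by
    rw [run_n]
    exact wdt_above u₀ u (a * b) j _
  obtain ⟨h1, h2⟩ := loc_lt h
  refine ext_move hv (l := draw l) (r := draw l') (move_loc h) (fits_draw ?_) (fits_draw ?_)
  · intro x hx
    have := h1 x hx
    exact lt_of_lt_of_eq this hn.symm
  · intro x hx
    have := h2 x hx
    exact lt_of_lt_of_eq this hn.symm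

/-! ### Marked words -/

/-- A letter with a mark. -/
def mpiece (l : (Bool × ℕ) × Bool) : Piece × Bool := (piece l.1, l.2)

/-- The marked word of an element. -/
def mplug (p : Fin k → FreeMonoid ((Bool × ℕ) × Bool)) : MWord :=
  plug (u₀.map fun x => (x, false)) (fun i => (u i).map fun x => (x, false)) mpiece p

/-- The element without marks. -/
def emb : (Fin k → FreeMonoid (Bool × ℕ)) →* (Fin k → FreeMonoid ((Bool × ℕ) × Bool)) :=
  MonoidHom.piMap fun _ => FreeMonoid.map fun l => (l, false)

theorem mplug_emb (p : Fin k → FreeMonoid (Bool × ℕ)) :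
    mplug u₀ u (emb p) = (plug u₀ u piece p).map fun x => (x, false) := by
  unfold mplug plug
  rw [List.map_append, List.map_flatten, List.map_ofFn]
  congr 3
  funext i
  show ((emb p) i).toList.map mpiece ++ _ = List.map _ (_ ++ _)
  rw [List.map_append]
  congr 1
  show (FreeMonoid.map _ (p i)).toList.map mpiece = _
  rw [FreeMonoid.toList_map, List.map_map, List.map_map]
  rfl

theorem emb_single (j : Fin k) (l : Bool × ℕ) :
    emb (Pi.mulSingle j (FreeMonoid.ofList [l])) =
      Pi.mulSingle j (FreeMonoid.ofList [(l, false)]) := by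
  funext i
  by_cases h : i = j
  · subst h
    show FreeMonoid.map _ ((Pi.mulSingle i (FreeMonoid.ofList [l]) :
      Fin k → FreeMonoid (Bool × ℕ)) i) = _
    rw [Pi.mulSingle_eq_same, Pi.mulSingle_eq_same]
    rfl
  · show FreeMonoid.map _ ((Pi.mulSingle j (FreeMonoid.ofList [l]) :
      Fin k → FreeMonoid (Bool × ℕ)) i) = _
    rw [Pi.mulSingle_eq_of_ne h, Pi.mulSingle_eq_of_ne h]
    rfl

theorem emb_mul (a b : Fin k → FreeMonoid (Bool × ℕ)) : emb (a * b) = emb a * emb b :=
  map_mul emb a b

theorem mplug_cross (p : Fin k → FreeMonoid ((Bool × ℕ) × Bool)) :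
    ∀ x ∈ mplug u₀ u p, x.2 = true → x.1.isCrossing = true := by
  intro x hx h
  unfold mplug plug at hx
  rcases List.mem_append.1 hx with hx | hx
  · obtain ⟨y, _, rfl⟩ := List.mem_map.1 hx
    exact absurd h (by simp)
  · obtain ⟨z, hz, hx⟩ := List.mem_flatten.1 hx
    obtain ⟨i, rfl⟩ := (List.mem_ofFn' _ _).1 hz
    rcases List.mem_append.1 hx with hx | hx
    · obtain ⟨⟨⟨b, i⟩, c⟩, _, rfl⟩ := List.mem_map.1 hx
      cases b <;> rfl
    · obtain ⟨y, _, rfl⟩ := List.mem_map.1 hx
      exact absurd h (by simp)

theorem nm_append (x y : MWord) : nm (x ++ y) = nm x + nm y := List.countP_append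

theorem dg_malt {n : ℕ} {v : Word → A} (h : DegreeLE n v) (r : ℕ) :
    ∀ P : Fin k → FreeMonoid ((Bool × ℕ) × Bool),
      (∀ p, nm (mplug u₀ u (P * emb p)) + r = n + 1) →
      Dg (ES (wd u₀ u)) r (fun p => malt (mplug u₀ u (P * emb p)) (ext v)) := by
  induction r with
  | zero =>
    intro P hP p
    exact malt_ext h _ (mplug_cross u₀ u _) (hP p)
  | succ r ih =>
    rintro P hP e ⟨j, i, hi, rfl⟩ a
    have key : ∀ p, malt (mplug u₀ u (P * emb (a * Pi.mulSingle j (FreeMonoid.ofList [(true, i)]) *
          p))) (ext v) -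
        malt (mplug u₀ u (P * emb (a * Pi.mulSingle j (FreeMonoid.ofList [(false, i)]) * p)))
          (ext v) =
        malt (mplug u₀ u (P * emb a * Pi.mulSingle j (FreeMonoid.ofList [((true, i), true)]) *
          emb p)) (ext v) := by
      intro p
      rw [emb_mul, emb_mul, emb_mul, emb_mul, emb_single, emb_single, ← mul_assoc, ← mul_assoc,
        ← mul_assoc, ← mul_assoc]
      obtain ⟨y, hy⟩ := plug_single (u₀.map fun x => (x, false))
        (fun i => (u i).map fun x => (x, false)) mpiece (P * emb a) (emb p) j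
      unfold mplug
      rw [hy, hy, hy]
      exact (malt_mark _ _ (.pos i) _).symm
    have hP' : ∀ p, nm (mplug u₀ u (P * emb a *
        Pi.mulSingle j (FreeMonoid.ofList [((true, i), true)]) * emb p)) + r = n + 1 := ?_
    · have h9 := ih _ hP'
      simp only [← key] at h9
      exact h9
    intro p
    have h1 := hP (a * p)
    rw [emb_mul, ← mul_assoc] at h1
    obtain ⟨y, hy⟩ := plug_single (u₀.map fun x => (x, false))
        (fun i => (u i).map fun x => (x, false)) mpiece (P * emb a) (emb p) j
    have h2 := hy (FreeMonoid.ofList [((true, i), true)])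
    have h3 := hy 1
    rw [Pi.mulSingle_one, mul_one] at h3
    have e2 := congrArg nm h2
    have e3 := congrArg nm h3
    rw [nm_append, nm_append] at e2 e3
    have e4 : nm ((FreeMonoid.ofList [((true, i), true)] :
      FreeMonoid ((Bool × ℕ) × Bool)).toList.map mpiece) = 1 := rfl
    have e5 : nm ((1 : FreeMonoid ((Bool × ℕ) × Bool)).toList.map mpiece) = 0 := rfl
    rw [e4] at e2
    rw [e5] at e3
    unfold mplug at h1 ⊢
    omega

theorem dg_phi {n : ℕ} {v : Word → A} (h : DegreeLE n v) :
    Dg (ES (wd u₀ u)) (n + 1) (phi u₀ u v) := by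
  have h0 : ∀ w : Word, nm (w.map fun x => (x, false)) = 0 := by
    intro w
    unfold nm
    rw [List.countP_map, List.countP_eq_zero]
    intro a _
    simp
  have h1 := dg_malt u₀ u h (n + 1) 1 (fun p => by
    rw [one_mul, mplug_emb, h0, zero_add])
  refine h1.congr fun p => ?_
  rw [one_mul, mplug_emb, malt_plain _ (h0 _)]
  unfold phi pl
  rw [List.map_map]
  congr 1
  exact List.map_id _

/-! ### Families -/

theorem family_eq (w : Fin k → Braid) (q : Fin k → ℤ) :
    family u₀ w u q = plug u₀ u piece (pw w q) := rfl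

/-- The letters of the braid words are on the strands. -/
theorem letters {w : Fin k → Braid} (h : IsKnot (family u₀ w u 1)) (j : Fin k) :
    ∀ l ∈ w j, l.2 + 1 < wd u₀ u j := by
  rw [family_eq, split_single (pw w 1) j] at h
  obtain ⟨y, hy⟩ := plug_single u₀ u piece 1 (Function.update (pw w 1) j 1) j
  have h1 := hy (pw w 1 j)
  rw [one_mul] at h1
  rw [h1] at h
  have h2 := h.1.1
  rw [fits_append, fits_append] at h2
  have h3 := h2.1.2
  have e : (pw w 1 j).toList.map piece = draw (w j) := by
    show draw (pow (w j) 1) = _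
    have : pow (w j) 1 = w j := by
      show (List.replicate 1 (w j)).flatten = _
      simp
    rw [this]
  rw [e] at h3
  have h4 := of_fits_draw h3
  intro l hl
  refine lt_of_lt_of_eq (h4 l hl) ?_
  rw [run_n]
  exact wdt_above u₀ u _ j _

/-- **Families of knots**: the value of an invariant of degree at most `n` is a polynomial function
of degree at most `n` of the exponents. -/
theorem base {w : Fin k → Braid} (hp : ∀ j, IsPure (w j)) (h : IsKnot (family u₀ w u 1)) :
    (∀ q, IsKnot (family u₀ w u q)) ∧ ∀ {A : Type} [AddCommGroup A] (n : ℕ) (v : Word → A),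
      IsInvariant v → DegreeLE n v → PD (n + 1) (fun q => v (family u₀ w u q)) := by
  have hw := letters u₀ u h
  have h1 : ∀ q, IsKnot (family u₀ w u q) := by
    intro q
    have hd : DegreeLE 0 (fun _ : Word => (1 : ℤ)) := by
      intro D _ S _ hS
      obtain ⟨x, rfl⟩ := Finset.card_eq_one.1 (by simpa using hS)
      rw [show ({x} : Finset ℕ).powerset = {∅, {x}} from rfl]
      rw [Finset.sum_pair (by simp)]
      simp
    have h2 := pd_of_dg (dg_phi u₀ u hd) (iv_phi u₀ u (fun _ _ _ _ => rfl)) hw hp
    have h3 := PD.const h2 q 1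
    by_contra hq
    have e1 : phi u₀ u (fun _ => (1 : ℤ)) (pw w 1) = 1 := if_pos h
    have e2 : phi u₀ u (fun _ => (1 : ℤ)) (pw w q) = 0 := if_neg hq
    simp only [e1, e2] at h3
    exact absurd h3 (by norm_num)
  refine ⟨h1, fun {A} _ n v hv hn => ?_⟩
  have h2 := pd_of_dg (dg_phi u₀ u hn) (iv_phi u₀ u hv) hw hp
  have e : (fun q => v (family u₀ w u q)) = fun q => phi u₀ u v (pw w q) := by
    funext q
    exact (if_pos (h1 q)).symm
  rw [e]
  exact h2

end

end Pool.Agent.Y466.FT
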