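import Pool.Agent.Y466.FT.Base

/-!
# Two families of knots
-/

set_option autoImplicit false

namespace Pool.Agent.Y466.FT

open Pool.Agent.H835R2 Pool.Agent.H835R2.Knot Pool.Agent.H835R2.Flat

/-- Some rational valued Vassiliev invariant of order at most `n` has different values on the two
diagrams. -/
def Separated (n : ℕ) (D E : Word) : Prop :=
  ∃ v : Word → ℚ, IsInvariant v ∧ DegreeLE n v ∧ v D ≠ v E

/-! ### Monotonicity of the degree -/

theorem isKnot_switchAt {D : Word} (h : IsKnot D) (T : Finset ℕ) : IsKnot (switchAt T D) :=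
  (Same.switchAt T D).knot.2 h

theorem crossingSet_switchAt (T : Finset ℕ) (D : Word) :
    crossingSet (switchAt T D) = crossingSet D := by
  ext m
  unfold crossingSet
  rw [Finset.mem_filter, Finset.mem_filter, Finset.mem_range, Finset.mem_range]
  have hl : (switchAt T D).length = D.length := List.length_mapIdx
  have hc : ∀ p : Piece, p.switch.isCrossing = p.isCrossing := by intro p; cases p <;> rfl
  have e : ∀ (h : m < D.length) (h' : m < (switchAt T D).length),
      ((switchAt T D)[m]).isCrossing = (D[m]).isCrossing := by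
    intro h h'
    have e1 : (switchAt T D)[m] = if m ∈ T then (D[m]).switch else D[m] := List.getElem_mapIdx
    rw [e1]
    split_ifs
    · exact hc _
    · rfl
  constructor
  · rintro ⟨h1, h2, h3⟩
    have h4 : m < D.length := by rw [← hl]; exact h1
    exact ⟨h4, h4, (e h4 h2) ▸ h3⟩
  · rintro ⟨h1, h2, h3⟩
    have h4 : m < (switchAt T D).length := by rw [hl]; exact h1
    exact ⟨h4, h4, (e h2 h4).symm ▸ h3⟩

theorem switchAt_insert (x : ℕ) (T : Finset ℕ) (hx : x ∉ T) (D : Word) :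
    switchAt (insert x T) D = switchAt T (switchAt {x} D) := by
  unfold switchAt
  apply List.ext_getElem
  · simp
  · intro i h1 h2
    simp only [List.getElem_mapIdx, Finset.mem_insert, Finset.mem_singleton]
    by_cases h3 : i = x
    · subst h3; simp [hx]
    · simp [h3]

theorem DegreeLE.succ {A : Type} [AddCommGroup A] {n : ℕ} {v : Word → A} (h : DegreeLE n v) :
    DegreeLE (n + 1) v := by
  intro D hD S hS hc
  have hne : S.Nonempty := by
    rw [← Finset.card_pos, hc]; omega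
  obtain ⟨x, hx⟩ := hne
  have e : S = insert x (S.erase x) := (Finset.insert_erase hx).symm
  have hx' : x ∉ S.erase x := Finset.notMem_erase x S
  have hc' : (S.erase x).card = n + 1 := by
    rw [Finset.card_erase_of_mem hx, hc]; rfl
  have hS' : S.erase x ⊆ crossingSet D := (Finset.erase_subset x S).trans hS
  rw [e, Finset.sum_powerset_insert hx', h D hD _ hS' hc', zero_add]
  have h2 := h (switchAt {x} D) (isKnot_switchAt hD _) (S.erase x)
    (by rw [crossingSet_switchAt]; exact hS') hc'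
  rw [← neg_zero, ← h2, ← Finset.sum_neg_distrib]
  refine Finset.sum_congr rfl fun T hT => ?_
  have hT' : x ∉ T := fun h => hx' (Finset.mem_powerset.1 hT h)
  rw [Finset.card_insert_of_notMem hT', pow_succ, switchAt_insert x T hT']
  simp

theorem DegreeLE.mono {A : Type} [AddCommGroup A] {m n : ℕ} (hmn : m ≤ n) {v : Word → A}
    (h : DegreeLE m v) : DegreeLE n v := by
  induction hmn with
  | refl => exact h
  | step _ ih => exact DegreeLE.succ ih

/-! ### Families -/

/-- Families of knots on which all Vassiliev invariants are polynomial functions. -/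
def Fam {k : ℕ} (D : (Fin k → ℤ) → Word) : Prop :=
  (∀ q, IsKnot (D q)) ∧ ∀ {A : Type} [AddCommGroup A] (n : ℕ) (v : Word → A),
      IsInvariant v → DegreeLE n v → PD (n + 1) (fun q => v (D q))

theorem fam_family {k : ℕ} {u₀ : Word} {u : Fin k → Word} {w : Fin k → Braid}
    (hp : ∀ j, IsPure (w j)) (h : IsKnot (family u₀ w u 1)) : Fam (family u₀ w u) :=
  base u₀ u hp h

theorem fam_const {D : Word} (h : IsKnot D) : Fam (fun _ : Fin 0 → ℤ => D) :=
  ⟨fun _ => h, fun _ _ _ _ i => i.elim0⟩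

section
variable {k k' : ℕ} {D : (Fin k → ℤ) → Word} {D' : (Fin k' → ℤ) → Word}

theorem pd_pair (hD : Fam D) (hD' : Fam D') {A : Type} [AddCommGroup A] {n : ℕ} {v : Word → A}
    (hv : IsInvariant v) (hn : DegreeLE n v) :
    PD (n + 1) (fun q : Fin k ⊕ Fin k' → ℤ => v (D (q ∘ Sum.inl)) - v (D' (q ∘ Sum.inr))) :=
  ((hD.2 n v hv hn).comp Sum.inl Sum.inl_injective).sub
    ((hD'.2 n v hv hn).comp Sum.inr Sum.inr_injective)

theorem simplex_pair (hD : Fam D) (hD' : Fam D') {A : Type} [AddCommGroup A] {n : ℕ}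
    {v : Word → A} (hv : IsInvariant v) (hn : DegreeLE n v) (a : Fin k → ℤ) (a' : Fin k' → ℤ)
    (h : ∀ q q', a ≤ q → a' ≤ q' → ∑ i, (q i - a i) + ∑ i, (q' i - a' i) ≤ n →
      v (D q) = v (D' q')) (q : Fin k → ℤ) (q' : Fin k' → ℤ) : v (D q) = v (D' q') := by
  have := PD.simplex (pd_pair hD hD' hv hn) (Sum.elim a a') (fun q hq hs => ?_) (Sum.elim q q')
  · exact sub_eq_zero.1 this
  · refine sub_eq_zero.2 (h _ _ (fun i => hq (Sum.inl i)) (fun i => hq (Sum.inr i)) ?_)
    rw [Fintype.sum_sum_type] at hs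
    exact hs

theorem poly_pair (hD : Fam D) (hD' : Fam D') {n : ℕ} {v : Word → ℚ} (hv : IsInvariant v)
    (hn : DegreeLE n v) : ∃ R : MvPolynomial (Fin k ⊕ Fin k') ℚ, R.totalDegree ≤ n ∧
      ∀ q q', MvPolynomial.eval (Sum.elim (fun i => (q i : ℚ)) fun i => (q' i : ℚ)) R =
        v (D q) - v (D' q') := by
  obtain ⟨P, hP, hP'⟩ := exists_poly k n _ (hD.2 n v hv hn)
  obtain ⟨Q, hQ, hQ'⟩ := exists_poly k' n _ (hD'.2 n v hv hn)
  refine ⟨MvPolynomial.rename Sum.inl P - MvPolynomial.rename Sum.inr Q, ?_, fun q q' => ?_⟩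
  · refine (MvPolynomial.totalDegree_sub _ _).trans (max_le ?_ ?_)
    · exact (MvPolynomial.totalDegree_rename_le _ _).trans hP
    · exact (MvPolynomial.totalDegree_rename_le _ _).trans hQ
  · rw [map_sub, MvPolynomial.eval_rename, MvPolynomial.eval_rename, hP', hQ']
    rfl

end

/-- **Hilbert's basis theorem** for an increasing union of sets of polynomials. -/
theorem exists_locus {σ : Type*} [Finite σ] (S : ℕ → Set (MvPolynomial σ ℚ))
    (mono : ∀ m n, m ≤ n → S m ⊆ S n) : ∃ (d : ℕ) (P : MvPolynomial σ ℚ), ∀ x : σ → ℚ,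
      (MvPolynomial.eval x P = 0 → ∀ n, ∀ R ∈ S n, MvPolynomial.eval x R = 0) ∧
      ((∀ R ∈ S d, MvPolynomial.eval x R = 0) → MvPolynomial.eval x P = 0) := by
  have hfg : (Submodule.span (MvPolynomial σ ℚ) (⋃ n, S n)).FG := IsNoetherian.noetherian _
  obtain ⟨T, hT, hT'⟩ := (Submodule.fg_span_iff_fg_span_finset_subset _).1 hfg
  have h1 : ∀ t ∈ T, ∃ n, t ∈ S n := fun t ht => Set.mem_iUnion.1 (hT ht)
  choose! N hN using h1
  refine ⟨T.sup N, ∑ t ∈ T, t ^ 2, fun x => ⟨fun h n R hR => ?_, fun h => ?_⟩⟩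
  · rw [map_sum] at h
    have h2 : ∀ t ∈ T, MvPolynomial.eval x t = 0 := by
      intro t ht
      have h3 := (Finset.sum_eq_zero_iff_of_nonneg (fun t _ => by
        rw [map_pow]; exact sq_nonneg _)).1 h t ht
      rw [map_pow] at h3
      exact pow_eq_zero_iff (two_ne_zero) |>.1 h3
    have h4 : Submodule.span (MvPolynomial σ ℚ) (T : Set (MvPolynomial σ ℚ)) ≤
        RingHom.ker (MvPolynomial.eval x) := Submodule.span_le.2 fun t ht => h2 t ht
    have h5 : R ∈ Submodule.span (MvPolynomial σ ℚ) (⋃ n, S n) :=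
      Submodule.subset_span (Set.mem_iUnion.2 ⟨n, hR⟩)
    rw [hT'] at h5
    exact h4 h5
  · rw [map_sum]
    refine Finset.sum_eq_zero fun t ht => ?_
    rw [map_pow, h t (mono _ _ (Finset.le_sup ht) (hN t ht))]
    rfl

section
variable {k k' : ℕ} {D : (Fin k → ℤ) → Word} {D' : (Fin k' → ℤ) → Word}

theorem locus_pair (hD : Fam D) (hD' : Fam D') :
    ∃ (d : ℕ) (P : MvPolynomial (Fin k ⊕ Fin k') ℚ), ∀ q q',
      (MvPolynomial.eval (Sum.elim (fun i => (q i : ℚ)) fun i => (q' i : ℚ)) P = 0 ↔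
        ¬ Separated d (D q) (D' q')) ∧
      (Separated d (D q) (D' q') ↔ ∃ n, Separated n (D q) (D' q')) := by
  obtain ⟨d, P, h⟩ := exists_locus (fun n => {R : MvPolynomial (Fin k ⊕ Fin k') ℚ |
      ∃ v : Word → ℚ, IsInvariant v ∧ DegreeLE n v ∧
      ∀ q q', MvPolynomial.eval (Sum.elim (fun i => (q i : ℚ)) fun i => (q' i : ℚ)) R =
        v (D q) - v (D' q')}) (by
    rintro m n hmn R ⟨v, h1, h2, h3⟩
    exact ⟨v, h1, DegreeLE.mono hmn h2, h3⟩)
  have key : ∀ q q', (∀ n, ¬ Separated n (D q) (D' q')) ↔ ¬ Separated d (D q) (D' q') := by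
    intro q q'
    refine ⟨fun h1 => h1 d, fun h1 n => ?_⟩
    rintro ⟨v, hv, hn, hne⟩
    obtain ⟨R, _, hR⟩ := poly_pair hD hD' hv hn
    have h2 := (h (Sum.elim (fun i => (q i : ℚ)) fun i => (q' i : ℚ))).2 (by
      rintro R ⟨v', hv', hn', hR'⟩
      rw [hR' q q']
      by_contra h3
      exact h1 ⟨v', hv', hn', fun h4 => h3 (sub_eq_zero.2 h4)⟩)
    have h3 := (h _).1 h2 n R ⟨v, hv, hn, hR⟩
    rw [hR] at h3
    exact hne (sub_eq_zero.1 h3)
  refine ⟨d, P, fun q q' => ⟨⟨fun h1 => ?_, fun h1 => ?_⟩, ⟨fun h1 => ⟨d, h1⟩, fun ⟨n, h1⟩ => ?_⟩⟩⟩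
  · rintro ⟨v, hv, hn, hne⟩
    obtain ⟨R, _, hR⟩ := poly_pair hD hD' hv hn
    have h3 := (h _).1 h1 d R ⟨v, hv, hn, hR⟩
    rw [hR] at h3
    exact hne (sub_eq_zero.1 h3)
  · refine (h _).2 ?_
    rintro R ⟨v', hv', hn', hR'⟩
    rw [hR' q q']
    by_contra h3
    exact h1 ⟨v', hv', hn', fun h4 => h3 (sub_eq_zero.2 h4)⟩
  · by_contra h2
    exact (key q q').2 h2 n h1

/-! ### Counting -/

open Finset in
/-- Zeros of a polynomial in boxes. -/
theorem count_zeros {m n : ℕ} {R : MvPolynomial (Fin m) ℚ} (hR : R ≠ 0) (hn : R.totalDegree ≤ n)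
    (A : Fin m → Finset ℤ) (M : ℕ) (hM : ∀ i, M ≤ (A i).card) :
    M * #{q ∈ Fintype.piFinset A | MvPolynomial.eval (fun i => (q i : ℚ)) R = 0} ≤
      n * ∏ i, (A i).card := by
  rcases Nat.eq_zero_or_pos M with h0 | h0
  · rw [h0, zero_mul]; exact Nat.zero_le _
  have hinj : Function.Injective (Int.cast : ℤ → ℚ) := Int.cast_injective
  have hA : ∀ i, ((A i).image (Int.cast : ℤ → ℚ)).card = (A i).card := fun i =>
    Finset.card_image_of_injective _ hinj
  have h1 := MvPolynomial.schwartz_zippel_sup_sum hR (fun i => (A i).image (Int.cast : ℤ → ℚ))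
  have h2 : #{q ∈ Fintype.piFinset A | MvPolynomial.eval (fun i => (q i : ℚ)) R = 0} ≤
      #{x ∈ Fintype.piFinset (fun i => (A i).image (Int.cast : ℤ → ℚ)) |
        MvPolynomial.eval x R = 0} := by
    refine Finset.card_le_card_of_injOn (fun q i => (q i : ℚ)) (fun q hq => ?_) (fun q _ q' _ h => ?_)
    · have hq' := Finset.mem_filter.1 (Finset.mem_coe.1 hq)
      refine Finset.mem_coe.2 (Finset.mem_filter.2 ⟨Fintype.mem_piFinset.2 fun i => ?_, hq'.2⟩)
      exact Finset.mem_image_of_mem _ (Fintype.mem_piFinset.1 hq'.1 i)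
    · funext i
      exact hinj (congrFun h i)
  have h3 : (R.support.sup fun s ↦ ∑ i, (s i / (((A i).image (Int.cast : ℤ → ℚ)).card : ℚ≥0) : ℚ≥0))
      ≤ (n : ℚ≥0) / M := by
    refine Finset.sup_le fun s hs => ?_
    calc ∑ i, ((s i : ℚ≥0) / (((A i).image (Int.cast : ℤ → ℚ)).card : ℚ≥0))
        ≤ ∑ i, (s i : ℚ≥0) / M := by
          refine Finset.sum_le_sum fun i _ => ?_
          rw [hA i]
          have : (M : ℚ≥0) ≤ ((A i).card : ℚ≥0) := by exact_mod_cast hM i
          exact div_le_div_of_nonneg_left (by positivity) (by exact_mod_cast h0) this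
      _ = (∑ i, s i : ℕ) / (M : ℚ≥0) := by rw [← Finset.sum_div]; push_cast; rfl
      _ ≤ (n : ℚ≥0) / M := by
          have h4 : ∑ i, s i ≤ n := by
            have h5 := MvPolynomial.le_totalDegree hs
            rw [Finsupp.sum_fintype _ _ (fun _ => rfl)] at h5
            exact h5.trans hn
          have h6 : ((∑ i, s i : ℕ) : ℚ≥0) ≤ n := by exact_mod_cast h4
          exact div_le_div_of_nonneg_right h6 (by positivity)
  have hpos : ∀ i, 0 < (A i).card := fun i => lt_of_lt_of_le h0 (hM i)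
  have hprod : (0 : ℚ≥0) < ∏ i, ((((A i).image (Int.cast : ℤ → ℚ)).card : ℕ) : ℚ≥0) := by
    refine Finset.prod_pos fun i _ => ?_
    rw [hA i]
    exact_mod_cast hpos i
  have h4 := h1.trans h3
  rw [div_le_div_iff₀ hprod (by exact_mod_cast h0)] at h4
  have h5 : #{x ∈ Fintype.piFinset (fun i => (A i).image (Int.cast : ℤ → ℚ)) |
        MvPolynomial.eval x R = 0} * M ≤ n * ∏ i, (A i).card := by
    have e : ∏ i, ((((A i).image (Int.cast : ℤ → ℚ)).card : ℕ) : ℚ≥0) =
        ((∏ i, (A i).card : ℕ) : ℚ≥0) := by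
      rw [Nat.cast_prod]
      exact Finset.prod_congr rfl fun i _ => by rw [hA i]
    rw [e] at h4
    exact_mod_cast h4
  calc _ = _ := Nat.mul_comm _ _
    _ ≤ _ := Nat.mul_le_mul_right _ h2
    _ ≤ _ := h5

open Finset Classical in
/-- **Zero-one law.** -/
theorem zero_one (hD : Fam D) (hD' : Fam D') {n : ℕ} {q₀ : Fin k → ℤ} {q₀' : Fin k' → ℤ}
    (h : Separated n (D q₀) (D' q₀')) (A : Fin k → Finset ℤ) (B : Fin k' → Finset ℤ) (M : ℕ)
    (hA : ∀ i, M ≤ (A i).card) (hB : ∀ i, M ≤ (B i).card) :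
    M * #{z ∈ Fintype.piFinset A ×ˢ Fintype.piFinset B | ¬ Separated n (D z.1) (D' z.2)} ≤
      n * ((∏ i, (A i).card) * ∏ i, (B i).card) := by
  obtain ⟨v, hv, hn, hne⟩ := h
  obtain ⟨R, hR, hR'⟩ := poly_pair hD hD' hv hn
  set R' := MvPolynomial.rename finSumFinEquiv R with hR1
  have hev : ∀ q q', MvPolynomial.eval (fun i => ((Fin.append q q' : Fin (k + k') → ℤ) i : ℚ)) R' =
      v (D q) - v (D' q') := by
    intro q q'
    rw [hR1, MvPolynomial.eval_rename, ← hR' q q']
    congr 2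
    funext i
    cases i with
    | inl i => simp
    | inr i => simp
  have hR0 : R' ≠ 0 := by
    intro h0
    have := hev q₀ q₀'
    rw [h0, map_zero] at this
    exact hne (sub_eq_zero.1 this.symm)
  have hn' : R'.totalDegree ≤ n := (MvPolynomial.totalDegree_rename_le _ _).trans hR
  have h1 := count_zeros hR0 hn' (Fin.append A B) M (fun i => by
    refine Fin.addCases (fun i => ?_) (fun i => ?_) i
    · rw [Fin.append_left]; exact hA i
    · rw [Fin.append_right]; exact hB i)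
  have e : ∏ i, (Fin.append A B i).card = (∏ i, (A i).card) * ∏ i, (B i).card := by
    rw [Fin.prod_univ_add]
    simp
  rw [e] at h1
  refine le_trans (Nat.mul_le_mul_left _ ?_) h1
  refine Finset.card_le_card_of_injOn (fun z => Fin.append z.1 z.2) (fun z hz => ?_)
    (fun z _ z' _ h => ?_)
  · obtain ⟨h2, h3⟩ := Finset.mem_filter.1 (Finset.mem_coe.1 hz)
    obtain ⟨h4, h5⟩ := Finset.mem_product.1 h2
    refine Finset.mem_coe.2 (Finset.mem_filter.2 ⟨Fintype.mem_piFinset.2 fun i => ?_, ?_⟩)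
    · refine Fin.addCases (fun i => ?_) (fun i => ?_) i
      · show Fin.append z.1 z.2 (Fin.castAdd k' i) ∈ _
        rw [Fin.append_left, Fin.append_left]; exact Fintype.mem_piFinset.1 h4 i
      · show Fin.append z.1 z.2 (Fin.natAdd k i) ∈ _
        rw [Fin.append_right, Fin.append_right]; exact Fintype.mem_piFinset.1 h5 i
    · rw [hev]
      by_contra h6
      exact h3 ⟨v, hv, hn, fun h7 => h6 (sub_eq_zero.2 h7)⟩
  · have h2 : ∀ i, z.1 i = z'.1 i := fun i => by
      have := congrFun h (Fin.castAdd k' i)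
      simpa using this
    have h3 : ∀ i, z.2 i = z'.2 i := fun i => by
      have := congrFun h (Fin.natAdd k i)
      simpa using this
    exact Prod.ext (funext h2) (funext h3)

end

end Pool.Agent.Y466.FT
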