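import Pool.Agent.Y466.FT.Fam

/-!
# One family of knots and a fixed knot
-/

set_option autoImplicit false

namespace Pool.Agent.Y466.FT

open Pool.Agent.H835R2 Pool.Agent.H835R2.Knot Pool.Agent.H835R2.Flat

section
variable {k : ℕ} {D : (Fin k → ℤ) → Word} {K : Word}

theorem locus_one (hD : Fam D) (hK : IsKnot K) :
    ∃ (d : ℕ) (P : MvPolynomial (Fin k) ℚ), ∀ q : Fin k → ℤ,
      (MvPolynomial.eval (fun i => (q i : ℚ)) P = 0 ↔ ¬ Separated d (D q) K) ∧
      (Separated d (D q) K ↔ ∃ n, Separated n (D q) K) := by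
  obtain ⟨d, P, hP⟩ := locus_pair hD (fam_const hK)
  refine ⟨d, MvPolynomial.rename (Sum.elim id Fin.elim0) P, fun q => ?_⟩
  have h1 := hP q Fin.elim0
  rw [MvPolynomial.eval_rename]
  have e : (fun i => (q i : ℚ)) ∘ (Sum.elim id Fin.elim0 : Fin k ⊕ Fin 0 → Fin k) =
      Sum.elim (fun i => (q i : ℚ)) fun i => ((Fin.elim0 i : ℤ) : ℚ) := by
    funext i
    cases i with
    | inl i => rfl
    | inr i => exact i.elim0
  rw [e]
  exact h1

open Finset Classical in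
theorem zero_one_one (hD : Fam D) {n : ℕ} {q₀ : Fin k → ℤ}
    (h : Separated n (D q₀) K) (A : Fin k → Finset ℤ) (M : ℕ)
    (hA : ∀ i, M ≤ (A i).card) :
    M * #{q ∈ Fintype.piFinset A | ¬ Separated n (D q) K} ≤ n * ∏ i, (A i).card := by
  obtain ⟨v, hv, hn, hne⟩ := h
  obtain ⟨R, hR, hR'⟩ := exists_poly k n _ (hD.2 n v hv hn)
  have hev : ∀ q : Fin k → ℤ, MvPolynomial.eval (fun i => (q i : ℚ)) (R - MvPolynomial.C (v K)) =
      v (D q) - v K := by
    intro q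
    rw [map_sub, MvPolynomial.eval_C, hR']
  have hR0 : R - MvPolynomial.C (v K) ≠ 0 := by
    intro h0
    have := hev q₀
    rw [h0, map_zero] at this
    exact hne (sub_eq_zero.1 this.symm)
  have hn' : (R - MvPolynomial.C (v K)).totalDegree ≤ n :=
    (MvPolynomial.totalDegree_sub_C_le _ _).trans hR
  refine le_trans (Nat.mul_le_mul_left _ ?_) (count_zeros hR0 hn' A M hA)
  refine Finset.card_le_card fun q hq => ?_
  obtain ⟨h2, h3⟩ := Finset.mem_filter.1 hq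
  refine Finset.mem_filter.2 ⟨h2, ?_⟩
  rw [hev]
  by_contra h6
  exact h3 ⟨v, hv, hn, fun h7 => h6 (sub_eq_zero.2 h7)⟩

theorem dense_one (hD : Fam D) (hK : IsKnot K) (X : Set (Fin k → ℤ))
    (hX : ∀ R : MvPolynomial (Fin k) ℚ,
      (∀ q ∈ X, MvPolynomial.eval (fun i => (q i : ℚ)) R = 0) → R = 0)
    (h : ∀ q ∈ X, ∀ n, ¬ Separated n (D q) K) (q : Fin k → ℤ) (n : ℕ) :
    ¬ Separated n (D q) K := by
  obtain ⟨d, P, hP⟩ := locus_one hD hK
  have h0 : P = 0 := hX P fun q hq => (hP q).1.2 (h q hq d)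
  intro hs
  have h1 := (hP q).2.2 ⟨n, hs⟩
  exact (hP q).1.1 (by rw [h0, map_zero]) h1

end

end Pool.Agent.Y466.FT
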